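import Pool.Agent.H174.GM.Stmts2

/-! Gog walks as sequences (statement `S_WG` of project GM, helper174). -/

set_option autoImplicit false

namespace Pool.Agent.H155.GM174

open Finset Pool.Agent.H174.GM

/-- the entries of a Gog walk are bounded -/
theorem wg_bound (k m : ℕ) (w : Fin (m + 1) → (Fin k → ℕ)) (h0 : w 0 = st k)
    (hs : ∀ t : Fin m, Step (w t.castSucc) (w t.succ)) (i : Fin k) :
    ∀ (j : ℕ) (hj : j < m + 1), w ⟨j, hj⟩ i ≤ k + j := by
  intro j
  induction j with
  | zero =>
    intro hj
    have h1 : w ⟨0, hj⟩ = st k := h0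
    rw [h1]
    unfold st
    omega
  | succ j ih =>
    intro hj
    have h1 := (hs ⟨j, by omega⟩).1 i
    have h2 := ih (by omega)
    have h3 : w (Fin.castSucc ⟨j, by omega⟩) i ≤ k + j := h2
    have h4 : w (Fin.succ ⟨j, by omega⟩) i = w ⟨j + 1, hj⟩ i := rfl
    omega

theorem wgx (k : ℕ) : ∀ (m : ℕ) (a : Fin k → ℕ), ∃ W : Finset (Fin (m + 1) → (Fin k → ℕ)),
    W.card = NG k m a ∧ ∀ w, w ∈ W ↔ (w 0 = st k ∧ w (Fin.last m) = a ∧
      ∀ t : Fin m, Step (w t.castSucc) (w t.succ) ∧ StrictMono (w t.succ) ∧
        ∀ i, 1 ≤ w t.succ i) := by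
  classical
  intro m
  induction m with
  | zero =>
    intro a
    by_cases ha : a = st k
    · refine ⟨{fun _ => st k}, ?_, ?_⟩
      · rw [NG, if_pos ha, card_singleton]
      · intro w
        rw [mem_singleton]
        constructor
        · rintro rfl
          exact ⟨rfl, ha.symm, fun t => t.elim0⟩
        · rintro ⟨h, -, -⟩
          funext t
          have ht : t = 0 := Fin.ext (by have := t.2; simp only [Fin.val_zero]; omega)
          rw [ht, h]
    · refine ⟨∅, ?_, ?_⟩
      · rw [NG, if_neg ha, card_empty]
      · intro w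
        constructor
        · intro h
          exact absurd h (notMem_empty _)
        · rintro ⟨h1, h2, -⟩
          exact absurd (h2.symm.trans h1) ha
  | succ m ih =>
    intro a
    choose W hcard hmem using ih
    by_cases ha : StrictMono a ∧ ∀ i, 1 ≤ a i
    · have hinj : Function.Injective (fun w : Fin (m + 1) → (Fin k → ℕ) =>
          (Fin.snoc (α := fun _ => Fin k → ℕ) w a : Fin (m + 1 + 1) → (Fin k → ℕ))) := by
        intro w w' h
        have h1 := congrArg (fun z : Fin (m + 1 + 1) → (Fin k → ℕ) => fun i : Fin (m + 1) =>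
          z i.castSucc) h
        simpa only [Fin.snoc_castSucc] using h1
      refine ⟨((Fintype.piFinset fun _ : Fin k => Finset.range (k + m + 1)).filter
        (fun b => Step b a)).biUnion (fun b => (W b).image
          (fun w => (Fin.snoc (α := fun _ => Fin k → ℕ) w a : Fin (m + 1 + 1) → (Fin k → ℕ)))),
        ?_, ?_⟩
      · rw [NG, if_pos ha, card_biUnion]
        · apply sum_congr rfl
          intro b _
          rw [card_image_of_injective _ hinj, hcard]
        · intro b _ b' _ hbb
          rw [Function.onFun, disjoint_left]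
          intro w hw hw'
          rw [mem_image] at hw hw'
          obtain ⟨v, hv, rfl⟩ := hw
          obtain ⟨v', hv', he⟩ := hw'
          have h1 := hinj he
          rw [← h1] at hv
          exact hbb (((hmem b v').1 hv).2.1.symm.trans ((hmem b' v').1 hv').2.1)
      · intro w
        rw [mem_biUnion]
        constructor
        · rintro ⟨b, hb, hw⟩
          rw [mem_filter] at hb
          rw [mem_image] at hw
          obtain ⟨v, hv, rfl⟩ := hw
          obtain ⟨v0, v1, v2⟩ := (hmem b v).1 hv
          refine ⟨?_, ?_, ?_⟩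
          · have h1 := Fin.snoc_castSucc (α := fun _ => Fin k → ℕ) a v 0
            rw [Fin.castSucc_zero] at h1
            rw [h1, v0]
          · exact Fin.snoc_last (α := fun _ => Fin k → ℕ) a v
          · intro t
            refine Fin.lastCases ?_ (fun t' => ?_) t
            · rw [Fin.succ_last, Fin.snoc_last, Fin.snoc_castSucc, v1]
              exact ⟨hb.2, ha.1, ha.2⟩
            · rw [Fin.succ_castSucc, Fin.snoc_castSucc, Fin.snoc_castSucc]
              exact v2 t'
        · rintro ⟨w0, w1, w2⟩
          refine ⟨w (Fin.last m).castSucc, ?_, ?_⟩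
          · rw [mem_filter, Fintype.mem_piFinset]
            refine ⟨fun i => ?_, ?_⟩
            · rw [mem_range]
              have h1 := wg_bound k (m + 1) w w0 (fun t => (w2 t).1) i m (by omega)
              have h2 : w (Fin.last m).castSucc i = w ⟨m, by omega⟩ i := rfl
              omega
            · have h1 := (w2 (Fin.last m)).1
              rw [Fin.succ_last, w1] at h1
              exact h1
          · rw [mem_image]
            refine ⟨fun i => w i.castSucc, ?_, ?_⟩
            · rw [hmem]
              refine ⟨w0, rfl, fun t => ?_⟩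
              exact w2 t.castSucc
            · rw [← w1]
              exact Fin.snoc_init_self (α := fun _ => Fin k → ℕ) w
    · refine ⟨∅, ?_, ?_⟩
      · rw [NG, if_neg ha, card_empty]
      · intro w
        constructor
        · intro h
          exact absurd h (notMem_empty _)
        · rintro ⟨-, h2, h3⟩
          exfalso
          apply ha
          have h4 := h3 (Fin.last m)
          rw [Fin.succ_last, h2] at h4
          exact ⟨h4.2.1, h4.2.2⟩

theorem wg : Pool.Agent.H174.GM.S_WG := by
  intro k m a
  obtain ⟨W, hW, hmem⟩ := wgx k m a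
  rw [← hW]
  have h1 : {w : Fin (m + 1) → (Fin k → ℕ) | w 0 = st k ∧ w (Fin.last m) = a ∧
    ∀ t : Fin m, Step (w t.castSucc) (w t.succ) ∧ StrictMono (w t.succ) ∧
      ∀ i, 1 ≤ w t.succ i} = (W : Set (Fin (m + 1) → (Fin k → ℕ))) := by
    ext w
    exact (hmem w).symm
  rw [h1, Set.ncard_coe_finset]

end Pool.Agent.H155.GM174
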